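import Pool.Agent.Q296.Bruhat.Sets

/-! Permutations as (set of values of the first `h` positions) × (two permutations). -/

set_option autoImplicit false

namespace Pool.Agent.Q296.Bruhat

open Finset

variable {h l : ℕ}

lemma card_compl_sub (T : Sub h (h + l)) : (T.1)ᶜ.card = l := by
  rw [Finset.card_compl, T.2, Fintype.card_fin]; omega

/-- increasing enumeration of `T` followed by that of its complement -/
noncomputable def en (T : Sub h (h + l)) : Fin h ⊕ Fin l ≃ Fin (h + l) :=
  finSumEquivOfFinset T.2 (card_compl_sub T)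

lemma en_inl (T : Sub h (h + l)) (i : Fin h) : en T (Sum.inl i) = T.1.orderEmbOfFin T.2 i :=
  finSumEquivOfFinset_inl _ _ _

lemma en_inr (T : Sub h (h + l)) (i : Fin l) :
    en T (Sum.inr i) = (T.1)ᶜ.orderEmbOfFin (card_compl_sub T) i :=
  finSumEquivOfFinset_inr _ _ _

lemma en_inl_mem (T : Sub h (h + l)) (i : Fin h) : en T (Sum.inl i) ∈ T.1 := by
  rw [en_inl]; exact Finset.orderEmbOfFin_mem _ _ _

lemma en_inr_not_mem (T : Sub h (h + l)) (i : Fin l) : en T (Sum.inr i) ∉ T.1 := by
  rw [en_inr, ← Finset.mem_compl]; exact Finset.orderEmbOfFin_mem _ _ _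

/-- the permutation with values `T` on the first `h` positions, in the order `σ`, and the other
values on the last `l` positions, in the order `τ` -/
noncomputable def blk (T : Sub h (h + l)) (σ : Equiv.Perm (Fin h)) (τ : Equiv.Perm (Fin l)) :
    Equiv.Perm (Fin (h + l)) :=
  finSumFinEquiv.symm.trans ((Equiv.sumCongr σ τ).trans (en T))

lemma blk_left (T : Sub h (h + l)) (σ : Equiv.Perm (Fin h)) (τ : Equiv.Perm (Fin l)) (k : Fin h) :
    blk T σ τ (Fin.castAdd l k) = en T (Sum.inl (σ k)) := by
  simp [blk]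

lemma blk_right (T : Sub h (h + l)) (σ : Equiv.Perm (Fin h)) (τ : Equiv.Perm (Fin l))
    (k : Fin l) : blk T σ τ (Fin.natAdd h k) = en T (Sum.inr (τ k)) := by
  simp [blk]

lemma image_left (T : Sub h (h + l)) (σ : Equiv.Perm (Fin h)) (τ : Equiv.Perm (Fin l)) :
    Finset.univ.image (fun k : Fin h => blk T σ τ (Fin.castAdd l k)) = T.1 := by
  ext x
  simp only [Finset.mem_image, Finset.mem_univ, true_and, blk_left]
  constructor
  · rintro ⟨k, rfl⟩; exact en_inl_mem _ _
  · intro hx
    have h1 : x ∈ Finset.image (T.1.orderEmbOfFin T.2) Finset.univ := by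
      rw [Finset.image_orderEmbOfFin_univ]; exact hx
    obtain ⟨i, _, hi⟩ := Finset.mem_image.1 h1
    exact ⟨σ.symm i, by rw [Equiv.apply_symm_apply, en_inl, hi]⟩

lemma blk_bij : Function.Bijective
    (fun x : Sub h (h + l) × (Equiv.Perm (Fin h) × Equiv.Perm (Fin l)) =>
      blk x.1 x.2.1 x.2.2) := by
  rw [Fintype.bijective_iff_injective_and_card]
  constructor
  · rintro ⟨T, σ, τ⟩ ⟨T', σ', τ'⟩ he
    simp only at he
    have h1 : T = T' := by
      apply Subtype.ext
      rw [← image_left T σ τ, ← image_left T' σ' τ', he]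
    subst h1
    have h2 : σ = σ' := by
      ext k
      have := congrArg (fun π : Equiv.Perm (Fin (h + l)) => π (Fin.castAdd l k)) he
      simp only [blk_left] at this
      have := Sum.inl_injective ((en T).injective this)
      rw [this]
    have h3 : τ = τ' := by
      ext k
      have := congrArg (fun π : Equiv.Perm (Fin (h + l)) => π (Fin.natAdd h k)) he
      simp only [blk_right] at this
      have := Sum.inr_injective ((en T).injective this)
      rw [this]
    rw [h2, h3]
  · rw [Fintype.card_prod, Fintype.card_prod, Fintype.card_perm, Fintype.card_perm,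
      Fintype.card_perm, Fintype.card_fin, Fintype.card_fin, Fintype.card_fin]
    have h1 : Fintype.card (Sub h (h + l)) = (h + l).choose h := by
      rw [Fintype.card_finset_len, Fintype.card_fin]
    rw [h1]
    have := Nat.choose_mul_factorial_mul_factorial (Nat.le_add_right h l)
    rw [Nat.add_sub_cancel_left] at this
    rw [← this]; ring

lemma en_move {T T' : Sub h (h + l)} {u v : Fin (h + l)} (huv : (v : ℕ) = u + 1) (hv : v ∈ T.1)
    (hu : u ∉ T.1) (hT : T'.1 = insert u (T.1.erase v)) (s : Fin h ⊕ Fin l) :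
    en T' s = Equiv.swap u v (en T s) := by
  have huv' : u ≠ v := by rintro rfl; omega
  have memT' : ∀ x, x ∈ T'.1 ↔ x = u ∨ (x ≠ v ∧ x ∈ T.1) := by
    intro x; rw [hT, Finset.mem_insert, Finset.mem_erase]
  rcases s with i | i
  · rw [en_inl, en_inl]
    have h1 := Finset.orderEmbOfFin_unique T'.2
      (f := fun i => Equiv.swap u v (T.1.orderEmbOfFin T.2 i)) (fun i => by
        have hm := Finset.orderEmbOfFin_mem T.1 T.2 i
        rw [memT']
        by_cases h2 : T.1.orderEmbOfFin T.2 i = v
        · left; rw [h2, Equiv.swap_apply_right]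
        · right
          have h3 : T.1.orderEmbOfFin T.2 i ≠ u := by
            intro he; rw [he] at hm; exact hu hm
          rw [Equiv.swap_apply_of_ne_of_ne h3 h2]
          exact ⟨h2, hm⟩) (by
        intro i j hij
        have hm1 := Finset.orderEmbOfFin_mem T.1 T.2 i
        have hm2 := Finset.orderEmbOfFin_mem T.1 T.2 j
        have hlt : T.1.orderEmbOfFin T.2 i < T.1.orderEmbOfFin T.2 j :=
          (T.1.orderEmbOfFin T.2).strictMono hij
        obtain ⟨a, ha⟩ : ∃ a, a = T.1.orderEmbOfFin T.2 i := ⟨_, rfl⟩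
        obtain ⟨b, hb⟩ : ∃ b, b = T.1.orderEmbOfFin T.2 j := ⟨_, rfl⟩
        simp only
        rw [← ha, ← hb] at hlt ⊢
        rw [← ha] at hm1
        rw [← hb] at hm2
        have hau : a ≠ u := fun he => hu (he ▸ hm1)
        have hbu : b ≠ u := fun he => hu (he ▸ hm2)
        have hau' : (a : ℕ) ≠ u := fun he => hau (Fin.ext he)
        have hbu' : (b : ℕ) ≠ u := fun he => hbu (Fin.ext he)
        rw [Fin.lt_def] at hlt ⊢
        rw [Equiv.swap_apply_def, Equiv.swap_apply_def, if_neg hau, if_neg hbu]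
        split_ifs with h3 h4 h4
        · subst h3; subst h4; omega
        · subst h3; omega
        · subst h4; omega
        · exact hlt)
    rw [← h1]
  · rw [en_inr, en_inr]
    have h1 := Finset.orderEmbOfFin_unique (card_compl_sub T')
      (f := fun i => Equiv.swap u v ((T.1)ᶜ.orderEmbOfFin (card_compl_sub T) i)) (fun i => by
        have hm := Finset.orderEmbOfFin_mem (T.1)ᶜ (card_compl_sub T) i
        rw [Finset.mem_compl] at hm ⊢
        rw [memT']
        by_cases h2 : (T.1)ᶜ.orderEmbOfFin (card_compl_sub T) i = u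
        · rw [h2, Equiv.swap_apply_left]
          rintro (h3 | h3)
          · exact huv' h3.symm
          · exact h3.1 rfl
        · have h4 : (T.1)ᶜ.orderEmbOfFin (card_compl_sub T) i ≠ v := by
            intro he; rw [he] at hm; exact hm hv
          rw [Equiv.swap_apply_of_ne_of_ne h2 h4]
          rintro (h3 | h3)
          · exact h2 h3
          · exact hm h3.2) (by
        intro i j hij
        have hm1 := Finset.orderEmbOfFin_mem (T.1)ᶜ (card_compl_sub T) i
        have hm2 := Finset.orderEmbOfFin_mem (T.1)ᶜ (card_compl_sub T) j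
        have hlt : (T.1)ᶜ.orderEmbOfFin (card_compl_sub T) i <
          (T.1)ᶜ.orderEmbOfFin (card_compl_sub T) j :=
          ((T.1)ᶜ.orderEmbOfFin (card_compl_sub T)).strictMono hij
        obtain ⟨a, ha⟩ : ∃ a, a = (T.1)ᶜ.orderEmbOfFin (card_compl_sub T) i := ⟨_, rfl⟩
        obtain ⟨b, hb⟩ : ∃ b, b = (T.1)ᶜ.orderEmbOfFin (card_compl_sub T) j := ⟨_, rfl⟩
        simp only
        rw [← ha, ← hb] at hlt ⊢
        rw [← ha, Finset.mem_compl] at hm1
        rw [← hb, Finset.mem_compl] at hm2
        have hau : a ≠ v := fun he => hm1 (he ▸ hv)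
        have hbu : b ≠ v := fun he => hm2 (he ▸ hv)
        have hau' : (a : ℕ) ≠ v := fun he => hau (Fin.ext he)
        have hbu' : (b : ℕ) ≠ v := fun he => hbu (Fin.ext he)
        rw [Fin.lt_def] at hlt ⊢
        rw [Equiv.swap_apply_def, Equiv.swap_apply_def, if_neg hau, if_neg hbu]
        split_ifs with h3 h4 h4
        · subst h3; subst h4; omega
        · subst h3; omega
        · subst h4; omega
        · exact hlt)
    rw [← h1]

lemma blk_symm_inl (T : Sub h (h + l)) (σ : Equiv.Perm (Fin h)) (τ : Equiv.Perm (Fin l))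
    (i : Fin h) : (blk T σ τ).symm (en T (Sum.inl i)) = Fin.castAdd l (σ.symm i) := by
  rw [Equiv.symm_apply_eq, blk_left, Equiv.apply_symm_apply]

lemma blk_symm_inr (T : Sub h (h + l)) (σ : Equiv.Perm (Fin h)) (τ : Equiv.Perm (Fin l))
    (i : Fin l) : (blk T σ τ).symm (en T (Sum.inr i)) = Fin.natAdd h (τ.symm i) := by
  rw [Equiv.symm_apply_eq, blk_right, Equiv.apply_symm_apply]

lemma perm_ext {a b : Equiv.Perm (Fin (h + l))}
    (h1 : ∀ k : Fin h, a (Fin.castAdd l k) = b (Fin.castAdd l k))
    (h2 : ∀ k : Fin l, a (Fin.natAdd h k) = b (Fin.natAdd h k)) : a = b := by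
  apply Equiv.ext
  intro k
  refine Fin.addCases (fun i => ?_) (fun i => ?_) k
  · exact h1 i
  · exact h2 i

lemma blk_up_sub {T T' : Sub h (h + l)} (hTT : Mv T T') (σ : Equiv.Perm (Fin h))
    (τ : Equiv.Perm (Fin l)) : Up (blk T σ τ) (blk T' σ τ) := by
  obtain ⟨u, v, huv, hv, hu, hT⟩ := hTT
  refine ⟨u, v, by rw [Fin.lt_def]; omega, ?_, ?_⟩
  · -- position of `v` is on the left, position of `u` on the right
    obtain ⟨sv, hsv⟩ := (en T).surjective v
    obtain ⟨su, hsu⟩ := (en T).surjective u
    rcases sv with i | i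
    · rcases su with j | j
      · exact absurd (hsu ▸ en_inl_mem T j) hu
      · rw [← hsv, ← hsu, blk_symm_inl, blk_symm_inr, Fin.lt_def, Fin.val_castAdd,
          Fin.val_natAdd]
        have := (σ.symm i).2
        omega
    · exact absurd hv (hsv ▸ en_inr_not_mem T i)
  · apply perm_ext
    · intro k
      rw [Equiv.Perm.mul_apply, blk_left, blk_left]
      exact en_move huv hv hu hT _
    · intro k
      rw [Equiv.Perm.mul_apply, blk_right, blk_right]
      exact en_move huv hv hu hT _

lemma blk_up_left (T : Sub h (h + l)) {σ σ' : Equiv.Perm (Fin h)} (hs : Up σ σ')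
    (τ : Equiv.Perm (Fin l)) : Up (blk T σ τ) (blk T σ' τ) := by
  obtain ⟨i, j, hij, h1, rfl⟩ := hs
  refine ⟨en T (Sum.inl i), en T (Sum.inl j), ?_, ?_, ?_⟩
  · rw [en_inl, en_inl]; exact (T.1.orderEmbOfFin T.2).strictMono hij
  · rw [blk_symm_inl, blk_symm_inl, Fin.lt_def]
    exact h1
  · apply perm_ext
    · intro k
      rw [Equiv.Perm.mul_apply, blk_left, blk_left, Equiv.Perm.mul_apply]
      have hinj : Function.Injective (fun s : Fin h => en T (Sum.inl s)) :=
        (en T).injective.comp Sum.inl_injective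
      exact (hinj.swap_apply i j (σ k)).symm
    · intro k
      rw [Equiv.Perm.mul_apply, blk_right, blk_right, Equiv.swap_apply_of_ne_of_ne]
      · intro he
        exact absurd ((en T).injective he) (by simp)
      · intro he
        exact absurd ((en T).injective he) (by simp)

lemma blk_up_right (T : Sub h (h + l)) (σ : Equiv.Perm (Fin h)) {τ τ' : Equiv.Perm (Fin l)}
    (hs : Up τ τ') : Up (blk T σ τ) (blk T σ τ') := by
  obtain ⟨i, j, hij, h1, rfl⟩ := hs
  refine ⟨en T (Sum.inr i), en T (Sum.inr j), ?_, ?_, ?_⟩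
  · rw [en_inr, en_inr]; exact ((T.1)ᶜ.orderEmbOfFin (card_compl_sub T)).strictMono hij
  · rw [blk_symm_inr, blk_symm_inr, Fin.lt_def, Fin.val_natAdd, Fin.val_natAdd]
    have : ((τ.symm j : Fin l) : ℕ) < τ.symm i := h1
    omega
  · apply perm_ext
    · intro k
      rw [Equiv.Perm.mul_apply, blk_left, blk_left, Equiv.swap_apply_of_ne_of_ne]
      · intro he
        exact absurd ((en T).injective he) (by simp)
      · intro he
        exact absurd ((en T).injective he) (by simp)
    · intro k
      rw [Equiv.Perm.mul_apply, blk_right, blk_right, Equiv.Perm.mul_apply]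
      have hinj : Function.Injective (fun s : Fin l => en T (Sum.inr s)) :=
        (en T).injective.comp Sum.inr_injective
      exact (hinj.swap_apply i j (τ k)).symm

/-- **Block-weighted permutations are positively associated.** -/
theorem PA_block (x : Fin (h + l) → ℝ) (hx : ∀ v, 0 ≤ x v) :
    PA (Up (n := h + l)) (fun a => ∏ k : Fin h, x (a (Fin.castAdd l k))) := by
  classical
  refine PA.map ((PA_sub h (h + l) x hx).prod (fun T => Finset.prod_nonneg fun t _ => hx t)
    (fun _ => by norm_num) ((PA_perm h).prod (fun _ => zero_le_one) (fun _ => zero_le_one)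
      (PA_perm l))) (fun y : Sub h (h + l) × (Equiv.Perm (Fin h) × Equiv.Perm (Fin l)) =>
      blk y.1 y.2.1 y.2.2) blk_bij ?_ ?_
  · rintro ⟨T, σ, τ⟩
    simp only [mul_one]
    have h1 := image_left T σ τ
    have h2 : ∏ t ∈ T.1, x t =
        ∏ t ∈ Finset.univ.image (fun k : Fin h => blk T σ τ (Fin.castAdd l k)), x t := by
      rw [h1]
    rw [h2, Finset.prod_image]
    intro a _ b _ hab
    exact Fin.castAdd_injective _ _ ((blk T σ τ).injective hab)
  · rintro ⟨T, σ, τ⟩ ⟨T', σ', τ'⟩ hR F hF
    simp only [Prod.mk.injEq] at hR ⊢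
    rcases hR with ⟨h1, h2, h3⟩ | ⟨rfl, ⟨h1, rfl⟩ | ⟨rfl, h1⟩⟩
    · subst h2; subst h3
      exact hF _ _ (blk_up_sub h1 _ _)
    · exact hF _ _ (blk_up_left _ h1 _)
    · exact hF _ _ (blk_up_right _ _ h1)

end Pool.Agent.Q296.Bruhat
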