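import Mathlib

/-! Positive association on permutations with the strong Bruhat order. -/

set_option autoImplicit false

namespace Pool.Agent.Q296.Bruhat

open Finset

/-- `b` is obtained from `a` by exchanging the entries `i < j` of an inversion of `a` -/
def Up {n : ℕ} (a b : Equiv.Perm (Fin n)) : Prop :=
  ∃ i j : Fin n, i < j ∧ a.symm j < a.symm i ∧ b = Equiv.swap i j * a

/-- positive association of the weight `w` with respect to the relation `R` (`R a b`: `b` is
above `a`) -/
def PA {X : Type*} [Fintype X] (R : X → X → Prop) (w : X → ℝ) : Prop :=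
  ∀ f g : X → ℝ, (∀ a b, R a b → f a ≤ f b) → (∀ a b, R a b → g a ≤ g b) →
    (∑ a, w a * f a) * (∑ a, w a * g a) ≤ (∑ a, w a) * ∑ a, w a * (f a * g a)

theorem PA.prod {X Y : Type*} [Fintype X] [Fintype Y] {R : X → X → Prop} {S : Y → Y → Prop}
    {u : X → ℝ} {v : Y → ℝ} (hu : ∀ x, 0 ≤ u x) (hv : ∀ y, 0 ≤ v y) (hX : PA R u)
    (hY : PA S v) :
    PA (fun p q : X × Y => (R p.1 q.1 ∧ p.2 = q.2) ∨ (p.1 = q.1 ∧ S p.2 q.2))
      (fun p => u p.1 * v p.2) := by
  intro f g hf hg
  obtain ⟨V, hV⟩ : ∃ V, V = ∑ y, v y := ⟨_, rfl⟩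
  obtain ⟨F, hF⟩ : ∃ F : X → ℝ, F = fun x => ∑ y, v y * f (x, y) := ⟨_, rfl⟩
  obtain ⟨G, hG⟩ : ∃ G : X → ℝ, G = fun x => ∑ y, v y * g (x, y) := ⟨_, rfl⟩
  obtain ⟨H, hH⟩ : ∃ H : X → ℝ, H = fun x => ∑ y, v y * (f (x, y) * g (x, y)) := ⟨_, rfl⟩
  have hV0 : 0 ≤ V := by rw [hV]; exact Finset.sum_nonneg fun y _ => hv y
  have e1 : ∑ p : X × Y, u p.1 * v p.2 * f p = ∑ x, u x * F x := by
    rw [Fintype.sum_prod_type, hF]
    apply Finset.sum_congr rfl
    intro x _
    simp only [Finset.mul_sum]
    exact Finset.sum_congr rfl fun y _ => by ring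
  have e2 : ∑ p : X × Y, u p.1 * v p.2 * g p = ∑ x, u x * G x := by
    rw [Fintype.sum_prod_type, hG]
    apply Finset.sum_congr rfl
    intro x _
    simp only [Finset.mul_sum]
    exact Finset.sum_congr rfl fun y _ => by ring
  have e3 : ∑ p : X × Y, u p.1 * v p.2 * (f p * g p) = ∑ x, u x * H x := by
    rw [Fintype.sum_prod_type, hH]
    apply Finset.sum_congr rfl
    intro x _
    simp only [Finset.mul_sum]
    exact Finset.sum_congr rfl fun y _ => by ring
  have e4 : ∑ p : X × Y, u p.1 * v p.2 = (∑ x, u x) * V := by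
    rw [Fintype.sum_prod_type, hV, Finset.sum_mul]
    apply Finset.sum_congr rfl
    intro x _
    rw [Finset.mul_sum]
  rw [e1, e2, e3, e4]
  have h1 : ∀ x, F x * G x ≤ V * H x := by
    intro x
    rw [hF, hG, hH, hV]
    exact hY (fun y => f (x, y)) (fun y => g (x, y))
      (fun a b hab => hf _ _ (Or.inr ⟨rfl, hab⟩)) (fun a b hab => hg _ _ (Or.inr ⟨rfl, hab⟩))
  have h2 := hX F G
    (fun a b hab => by
      rw [hF]
      exact Finset.sum_le_sum fun y _ =>
        mul_le_mul_of_nonneg_left (hf _ _ (Or.inl ⟨hab, rfl⟩)) (hv y))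
    (fun a b hab => by
      rw [hG]
      exact Finset.sum_le_sum fun y _ =>
        mul_le_mul_of_nonneg_left (hg _ _ (Or.inl ⟨hab, rfl⟩)) (hv y))
  have h3 : ∑ x, u x * (F x * G x) ≤ V * ∑ x, u x * H x := by
    rw [Finset.mul_sum]
    apply Finset.sum_le_sum
    intro x _
    have := mul_le_mul_of_nonneg_left (h1 x) (hu x)
    linarith
  have hU0 : 0 ≤ ∑ x, u x := Finset.sum_nonneg fun x _ => hu x
  calc (∑ x, u x * F x) * ∑ x, u x * G x ≤ (∑ x, u x) * ∑ x, u x * (F x * G x) := h2
    _ ≤ (∑ x, u x) * (V * ∑ x, u x * H x) := mul_le_mul_of_nonneg_left h3 hU0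
    _ = (∑ x, u x) * V * ∑ x, u x * H x := by ring

theorem PA.map {X Z : Type*} [Fintype X] [Fintype Z] {R : X → X → Prop} {S : Z → Z → Prop}
    {u : X → ℝ} {w : Z → ℝ} (hX : PA R u) (e : X → Z) (he : Function.Bijective e)
    (hw : ∀ x, w (e x) = u x)
    (hR : ∀ a b, R a b → ∀ f : Z → ℝ, (∀ c d, S c d → f c ≤ f d) → f (e a) ≤ f (e b)) :
    PA S w := by
  intro f g hf hg
  have h := hX (f ∘ e) (g ∘ e) (fun a b hab => hR a b hab f hf) (fun a b hab => hR a b hab g hg)
  have e1 : ∀ F : Z → ℝ, ∑ z, w z * F z = ∑ x, u x * F (e x) := by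
    intro F
    rw [← Function.Bijective.sum_comp he (fun z => w z * F z)]
    exact Finset.sum_congr rfl fun x _ => by rw [hw]
  have e2 : ∑ z, w z = ∑ x, u x := by
    rw [← Function.Bijective.sum_comp he (fun z => w z)]
    exact Finset.sum_congr rfl fun x _ => by rw [hw]
  rw [e1, e1, e1, e2]
  exact h

theorem PA_fin (k : ℕ) : PA (fun a b : Fin k => a ≤ b) (fun _ => (1 : ℝ)) := by
  intro f g hf hg
  simp only [one_mul, Finset.sum_const, Finset.card_univ, nsmul_eq_mul, mul_one]
  have h : Monovary f g := by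
    intro i j hij
    rcases le_total i j with h | h
    · exact hf _ _ h
    · exact absurd (hg _ _ h) (not_le.2 hij)
  exact h.sum_mul_sum_le_card_mul_sum

/-! ### the uniform measure -/

/-- insert the largest value at position `p` -/
noncomputable def ins {n : ℕ} (p : Fin (n + 1)) (σ : Equiv.Perm (Fin n)) :
    Equiv.Perm (Fin (n + 1)) :=
  (finSuccEquiv' p).trans ((Equiv.optionCongr σ).trans (finSuccEquiv' (Fin.last n)).symm)

lemma ins_self {n : ℕ} (p : Fin (n + 1)) (σ : Equiv.Perm (Fin n)) :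
    ins p σ p = Fin.last n := by
  simp [ins]

lemma ins_succAbove {n : ℕ} (p : Fin (n + 1)) (σ : Equiv.Perm (Fin n)) (k : Fin n) :
    ins p σ (p.succAbove k) = (σ k).castSucc := by
  simp [ins]

lemma ins_bij (n : ℕ) : Function.Bijective
    (fun x : Fin (n + 1) × Equiv.Perm (Fin n) => ins x.1 x.2) := by
  rw [Fintype.bijective_iff_injective_and_card]
  constructor
  · rintro ⟨p, σ⟩ ⟨p', σ'⟩ h
    simp only at h
    have h1 : p = p' := by
      have := ins_self p σ
      rw [h] at this
      rw [← ins_self p' σ'] at this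
      exact (ins p' σ').injective this
    subst h1
    have h2 : σ = σ' := by
      ext k
      have := ins_succAbove p σ k
      rw [h, ins_succAbove] at this
      have := congrArg Fin.val this
      simpa using this.symm
    rw [h2]
  · rw [Fintype.card_prod, Fintype.card_perm, Fintype.card_perm, Fintype.card_fin,
      Fintype.card_fin, Nat.factorial_succ]

lemma ins_move {n : ℕ} (i : Fin n) (σ : Equiv.Perm (Fin n)) :
    Up (ins i.castSucc σ) (ins i.succ σ) := by
  refine ⟨(σ i).castSucc, Fin.last n, Fin.castSucc_lt_last _, ?_, ?_⟩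
  · have h1 : (ins i.castSucc σ).symm (Fin.last n) = i.castSucc := by
      rw [Equiv.symm_apply_eq, ins_self]
    have h2 : (ins i.castSucc σ).symm (σ i).castSucc = i.succ := by
      rw [Equiv.symm_apply_eq]
      have := ins_succAbove i.castSucc σ i
      rw [Fin.succAbove_castSucc_self] at this
      exact this.symm
    rw [h1, h2]
    exact Fin.castSucc_lt_succ
  · ext k
    congr 1
    rw [Equiv.Perm.mul_apply]
    refine Fin.succAboveCases i.castSucc ?_ (fun j => ?_) k
    · rw [ins_self, Equiv.swap_apply_right]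
      have := ins_succAbove i.succ σ i
      rw [Fin.succAbove_succ_self] at this
      exact this
    · rw [ins_succAbove]
      by_cases hj : j = i
      · subst hj
        rw [Equiv.swap_apply_left, Fin.succAbove_castSucc_self, ins_self]
      · have h3 : i.castSucc.succAbove j = i.succ.succAbove j := by
          rcases lt_or_gt_of_ne hj with h | h
          · rw [Fin.succAbove_castSucc_of_lt _ _ h, Fin.succAbove_succ_of_le _ _ h.le]
          · rw [Fin.succAbove_castSucc_of_le _ _ h.le, Fin.succAbove_succ_of_lt _ _ h]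
        rw [h3, ins_succAbove, Equiv.swap_apply_of_ne_of_ne]
        · intro h
          exact hj (σ.injective (Fin.castSucc_injective _ h))
        · exact (Fin.castSucc_lt_last _).ne

lemma ins_up {n : ℕ} (p : Fin (n + 1)) {σ σ' : Equiv.Perm (Fin n)} (h : Up σ σ') :
    Up (ins p σ) (ins p σ') := by
  obtain ⟨i, j, hij, h1, rfl⟩ := h
  have hpos : ∀ v : Fin n, (ins p σ).symm v.castSucc = p.succAbove (σ.symm v) := by
    intro v
    rw [Equiv.symm_apply_eq, ins_succAbove, Equiv.apply_symm_apply]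
  refine ⟨i.castSucc, j.castSucc, hij, ?_, ?_⟩
  · rw [hpos, hpos]
    exact (Fin.strictMono_succAbove p) h1
  · ext k
    congr 1
    rw [Equiv.Perm.mul_apply]
    refine Fin.succAboveCases p ?_ (fun l => ?_) k
    · rw [ins_self, ins_self, Equiv.swap_apply_of_ne_of_ne]
      · exact (Fin.castSucc_lt_last _).ne'
      · exact (Fin.castSucc_lt_last _).ne'
    · rw [ins_succAbove, ins_succAbove, Equiv.Perm.mul_apply]
      have := (Fin.castSucc_injective n).swap_apply i j (σ l)
      exact this.symm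

theorem PA_perm : ∀ n : ℕ, PA (Up (n := n)) (fun _ => (1 : ℝ)) := by
  intro n
  induction n with
  | zero =>
    intro f g _ _
    simp
  | succ n ih =>
    refine PA.map ((PA_fin (n + 1)).prod (fun _ => zero_le_one) (fun _ => zero_le_one) ih)
      (fun x : Fin (n + 1) × Equiv.Perm (Fin n) => ins x.1 x.2) (ins_bij n)
      (fun x => by norm_num) ?_
    rintro ⟨p, σ⟩ ⟨p', σ'⟩ h f hf
    simp only at h ⊢
    rcases h with ⟨h1, rfl⟩ | ⟨rfl, h2⟩
    · have hm : Monotone (fun p : Fin (n + 1) => f (ins p σ)) := by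
        rw [Fin.monotone_iff_le_succ]
        intro i
        exact hf _ _ (ins_move i σ)
      exact hm h1
    · exact hf _ _ (ins_up p h2)

end Pool.Agent.Q296.Bruhat
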