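import Pool.Agent.Q296.Bruhat.PA

/-! Positive association of weighted `h`-subsets and of block-weighted permutations. -/

set_option autoImplicit false

namespace Pool.Agent.Q296.Bruhat

open Finset

/-- strictly increasing functions as a sublattice -/
def Inc (h N : ℕ) : Sublattice (Fin h → Fin N) where
  carrier := {f | StrictMono f}
  supClosed' := by
    intro f hf g hg i j hij
    exact max_lt_max (hf hij) (hg hij)
  infClosed' := by
    intro f hf g hg i j hij
    exact min_lt_min (hf hij) (hg hij)

lemma mem_Inc {h N : ℕ} {f : Fin h → Fin N} : f ∈ Inc h N ↔ StrictMono f := Iff.rfl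

/-- the `h`-subsets -/
abbrev Sub (h N : ℕ) : Type := {T : Finset (Fin N) // T.card = h}

/-- the set of values -/
def toSub {h N : ℕ} (f : Inc h N) : Sub h N :=
  ⟨Finset.univ.image f.1, by
    rw [Finset.card_image_of_injective _ (mem_Inc.1 f.2).injective, Finset.card_fin]⟩

lemma toSub_bij (h N : ℕ) : Function.Bijective (toSub (h := h) (N := N)) := by
  constructor
  · intro f g hfg
    have h1 : Finset.univ.image f.1 = Finset.univ.image g.1 := congrArg Subtype.val hfg
    have hc : (Finset.univ.image f.1).card = h := (toSub f).2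
    have e1 := Finset.orderEmbOfFin_unique hc (f := f.1) (fun x => by simp) (mem_Inc.1 f.2)
    have e2 := Finset.orderEmbOfFin_unique hc (f := g.1) (fun x => by rw [h1]; simp)
      (mem_Inc.1 g.2)
    exact Subtype.ext (e1.trans e2.symm)
  · rintro ⟨T, hT⟩
    refine ⟨⟨T.orderEmbOfFin hT, (T.orderEmbOfFin hT).strictMono⟩, ?_⟩
    apply Subtype.ext
    simp only [toSub]
    rw [← Finset.coe_inj]
    simp

/-- `T'` is obtained from `T` by replacing an element by its predecessor -/
def Mv {h N : ℕ} (T T' : Sub h N) : Prop :=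
  ∃ u v : Fin N, (v : ℕ) = u + 1 ∧ v ∈ T.1 ∧ u ∉ T.1 ∧ T'.1 = insert u (T.1.erase v)

lemma mono_of_moves {h N : ℕ} {F : Sub h N → ℝ} (hF : ∀ a b, Mv a b → F a ≤ F b) :
    ∀ (d : ℕ) (f g : Inc h N), f ≤ g → ∑ i, ((g.1 i : ℕ) - (f.1 i : ℕ)) = d →
      F (toSub g) ≤ F (toSub f) := by
  classical
  intro d
  induction d with
  | zero =>
    intro f g hfg hs
    have : f = g := by
      apply Subtype.ext
      funext i
      have h1 := (Finset.sum_eq_zero_iff.1 hs) i (Finset.mem_univ _)
      have h2 : (f.1 i : ℕ) ≤ g.1 i := hfg i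
      exact Fin.ext (by omega)
    rw [this]
  | succ d ih =>
    intro f g hfg hs
    have hfg' : ∀ i, (f.1 i : ℕ) ≤ g.1 i := fun i => hfg i
    obtain ⟨S, hS⟩ : ∃ S : Finset (Fin h), S = Finset.univ.filter (fun i => f.1 i < g.1 i) :=
      ⟨_, rfl⟩
    have hne : S.Nonempty := by
      by_contra hc
      rw [Finset.not_nonempty_iff_eq_empty] at hc
      have : ∑ i, ((g.1 i : ℕ) - (f.1 i : ℕ)) = 0 := by
        apply Finset.sum_eq_zero
        intro i _
        have h1 : i ∉ S := by rw [hc]; simp
        rw [hS, Finset.mem_filter] at h1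
        push Not at h1
        have h2 : (g.1 i : ℕ) ≤ f.1 i := h1 (Finset.mem_univ _)
        omega
      omega
    obtain ⟨i0, hi0, hmin⟩ : ∃ i0 ∈ S, ∀ j ∈ S, i0 ≤ j :=
      ⟨S.min' hne, S.min'_mem hne, fun j hj => S.min'_le j hj⟩
    have hlt : (f.1 i0 : ℕ) < g.1 i0 := by
      rw [hS, Finset.mem_filter] at hi0; exact hi0.2
    have heq : ∀ j, j < i0 → (f.1 j : ℕ) = g.1 j := by
      intro j hj
      by_contra hc
      have h1 : j ∈ S := by
        rw [hS, Finset.mem_filter]
        refine ⟨Finset.mem_univ _, ?_⟩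
        rw [Fin.lt_def]
        have := hfg' j
        omega
      exact absurd (hmin j h1) (not_le.2 hj)
    have hgm : StrictMono g.1 := mem_Inc.1 g.2
    have hfm : StrictMono f.1 := mem_Inc.1 f.2
    obtain ⟨u, hu⟩ : ∃ u : Fin N, (u : ℕ) + 1 = g.1 i0 :=
      ⟨⟨(g.1 i0 : ℕ) - 1, by have := (g.1 i0).2; omega⟩, by simp only; omega⟩
    have hkm : StrictMono (Function.update g.1 i0 u) := by
      intro j k hjk
      by_cases hk : k = i0
      · subst hk
        rw [Function.update_self, Function.update_of_ne hjk.ne]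
        have h1 := heq j hjk
        have h2 : (f.1 j : ℕ) < f.1 k := hfm hjk
        rw [Fin.lt_def]
        omega
      · rw [Function.update_of_ne hk]
        by_cases hj : j = i0
        · subst hj
          rw [Function.update_self]
          have h2 : (g.1 j : ℕ) < g.1 k := hgm hjk
          rw [Fin.lt_def]
          omega
        · rw [Function.update_of_ne hj]
          exact hgm hjk
    obtain ⟨k, hk⟩ : ∃ k : Inc h N, k.1 = Function.update g.1 i0 u := ⟨⟨_, hkm⟩, rfl⟩
    have hfk : f ≤ k := by
      intro i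
      show f.1 i ≤ k.1 i
      rw [hk]
      by_cases hi : i = i0
      · subst hi
        rw [Function.update_self, Fin.le_def]
        omega
      · rw [Function.update_of_ne hi]
        exact hfg i
    have hsum : ∑ i, ((k.1 i : ℕ) - (f.1 i : ℕ)) = d := by
      have h1 : ∑ i, ((g.1 i : ℕ) - (f.1 i : ℕ)) = ∑ i, ((k.1 i : ℕ) - (f.1 i : ℕ)) + 1 := by
        rw [← Finset.add_sum_erase _ _ (Finset.mem_univ i0),
          ← Finset.add_sum_erase (a := i0) _ (fun i => (k.1 i : ℕ) - (f.1 i : ℕ))
            (Finset.mem_univ i0)]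
        have h2 : ∑ i ∈ Finset.univ.erase i0, ((g.1 i : ℕ) - (f.1 i : ℕ)) =
            ∑ i ∈ Finset.univ.erase i0, ((k.1 i : ℕ) - (f.1 i : ℕ)) := by
          apply Finset.sum_congr rfl
          intro i hi
          rw [hk, Function.update_of_ne (Finset.ne_of_mem_erase hi)]
        have h3 : (k.1 i0 : ℕ) + 1 = g.1 i0 := by rw [hk, Function.update_self]; exact hu
        omega
      omega
    refine le_trans (hF _ _ ?_) (ih f k hfk hsum)
    refine ⟨u, g.1 i0, hu.symm, ?_, ?_, ?_⟩
    · simp [toSub]
    · simp only [toSub, Finset.mem_image, Finset.mem_univ, true_and, not_exists]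
      intro j hj
      have h1 := congrArg Fin.val hj
      rcases lt_trichotomy j i0 with h2 | h2 | h2
      · have h3 := heq j h2
        have h4 : (f.1 j : ℕ) < f.1 i0 := hfm h2
        omega
      · subst h2; omega
      · have h4 : (g.1 i0 : ℕ) < g.1 j := hgm h2
        omega
    · ext x
      simp only [toSub, hk, Finset.mem_image, Finset.mem_univ, true_and, Finset.mem_insert,
        Finset.mem_erase]
      constructor
      · rintro ⟨j, rfl⟩
        by_cases hj : j = i0
        · subst hj; left; rw [Function.update_self]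
        · right
          rw [Function.update_of_ne hj]
          exact ⟨fun h => hj (hgm.injective h), j, rfl⟩
      · rintro (rfl | ⟨h1, j, rfl⟩)
        · exact ⟨i0, by rw [Function.update_self]⟩
        · refine ⟨j, ?_⟩
          rw [Function.update_of_ne]
          rintro rfl
          exact h1 rfl

theorem PA_sub (h N : ℕ) (x : Fin N → ℝ) (hx : ∀ v, 0 ≤ x v) :
    PA (Mv (h := h) (N := N)) (fun T => ∏ t ∈ T.1, x t) := by
  classical
  have hw : ∀ f : Inc h N, ∏ t ∈ (toSub f).1, x t = ∏ i, x (f.1 i) := by
    intro f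
    simp only [toSub]
    rw [Finset.prod_image]
    intro i _ j _ hij
    exact (mem_Inc.1 f.2).injective hij
  refine PA.map (R := fun a b : Inc h N => b ≤ a) (u := fun f => ∏ i, x (f.1 i)) ?_ toSub
    (toSub_bij h N) hw ?_
  · intro F G hF hG
    obtain ⟨c, hc⟩ : ∃ c : ℝ, ∀ a, 0 ≤ F a + c := by
      obtain ⟨M, hM⟩ := (Set.finite_range (fun a => |F a|)).bddAbove
      refine ⟨M, fun a => ?_⟩
      have := hM ⟨a, rfl⟩
      have := neg_abs_le (F a)
      simp only at *
      linarith
    obtain ⟨c', hc'⟩ : ∃ c : ℝ, ∀ a, 0 ≤ G a + c := by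
      obtain ⟨M, hM⟩ := (Set.finite_range (fun a => |G a|)).bddAbove
      refine ⟨M, fun a => ?_⟩
      have := hM ⟨a, rfl⟩
      have := neg_abs_le (G a)
      simp only at *
      linarith
    obtain ⟨μ, hμ⟩ : ∃ μ : Inc h N → ℝ, μ = fun f => ∏ i, x (f.1 i) := ⟨_, rfl⟩
    have key := fkg (α := (Inc h N)ᵒᵈ) (β := ℝ) (μ := fun a => μ (OrderDual.ofDual a))
      (f := fun a => F (OrderDual.ofDual a) + c) (g := fun a => G (OrderDual.ofDual a) + c')
      (fun a => by rw [hμ]; exact Finset.prod_nonneg fun i _ => hx _)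
      (fun a => hc _) (fun a => hc' _)
      (fun a b hab => by
        have := hF (OrderDual.ofDual a) (OrderDual.ofDual b) hab
        simp only; linarith)
      (fun a b hab => by
        have := hG (OrderDual.ofDual a) (OrderDual.ofDual b) hab
        simp only; linarith)
      (fun a b => by
        rw [hμ]
        simp only
        rw [← Finset.prod_mul_distrib, ← Finset.prod_mul_distrib]
        apply le_of_eq
        apply Finset.prod_congr rfl
        intro i _
        have e1 : (OrderDual.ofDual (a ⊓ b)).1 i =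
            max ((OrderDual.ofDual a).1 i) ((OrderDual.ofDual b).1 i) := rfl
        have e2 : (OrderDual.ofDual (a ⊔ b)).1 i =
            min ((OrderDual.ofDual a).1 i) ((OrderDual.ofDual b).1 i) := rfl
        rw [e1, e2]
        rcases le_total ((OrderDual.ofDual a).1 i) ((OrderDual.ofDual b).1 i) with hle | hle
        · rw [max_eq_right hle, min_eq_left hle]; ring
        · rw [max_eq_left hle, min_eq_right hle])
    have es : ∀ φ : Inc h N → ℝ, ∑ a : (Inc h N)ᵒᵈ, φ (OrderDual.ofDual a) = ∑ a, φ a := by
      intro φ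
      exact Fintype.sum_equiv OrderDual.ofDual _ _ (fun _ => rfl)
    rw [es (fun a => μ a * (F a + c)), es (fun a => μ a * (G a + c')), es μ,
      es (fun a => μ a * ((F a + c) * (G a + c')))] at key
    have k1 : ∑ a, μ a * (F a + c) = ∑ a, μ a * F a + c * ∑ a, μ a := by
      rw [Finset.mul_sum, ← Finset.sum_add_distrib]
      exact Finset.sum_congr rfl fun a _ => by ring
    have k2 : ∑ a, μ a * (G a + c') = ∑ a, μ a * G a + c' * ∑ a, μ a := by
      rw [Finset.mul_sum, ← Finset.sum_add_distrib]
      exact Finset.sum_congr rfl fun a _ => by ring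
    have k3 : ∑ a, μ a * ((F a + c) * (G a + c')) = ∑ a, μ a * (F a * G a) +
        c' * ∑ a, μ a * F a + c * ∑ a, μ a * G a + c * c' * ∑ a, μ a := by
      rw [Finset.mul_sum, Finset.mul_sum, Finset.mul_sum, ← Finset.sum_add_distrib,
        ← Finset.sum_add_distrib, ← Finset.sum_add_distrib]
      exact Finset.sum_congr rfl fun a _ => by ring
    rw [k1, k2, k3] at key
    rw [← hμ]
    nlinarith [key]
  · intro a b hab F hF
    exact mono_of_moves hF _ b a hab rfl

end Pool.Agent.Q296.Bruhat
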